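import Pool.Agent.Helper20.FS.St

/-!
# Project SL, module EX: geometric series
-/

set_option autoImplicit false

open Topology Filter

namespace Pool.Agent.Helper7.SL

open Pool.Agent.Helper20.FA Pool.Agent.Helper20.FR Pool.Agent.Helper20.FS

theorem hEX : StEX := by
  intro A _ _ p hm hS a ha
  obtain ⟨x, hx⟩ : ∃ x, x = 1 - a := ⟨_, rfl⟩
  rw [← hx] at ha
  obtain ⟨K, hK⟩ : ∃ K, K = 1 + p (1 : A) := ⟨_, rfl⟩
  have hp1 : 0 ≤ p (1 : A) := apply_nonneg p _
  have hK0 : 0 < K := by rw [hK]; linarith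
  have hpow : ∀ i : ℕ, p (x ^ i) ≤ K * (1 / 2) ^ i := by
    intro i
    induction i with
    | zero =>
      rw [pow_zero, pow_zero, mul_one, hK]
      linarith
    | succ i ih =>
      calc p (x ^ (i + 1)) = p (x ^ i * x) := by rw [pow_succ]
        _ ≤ p (x ^ i) * p x := hm _ _
        _ ≤ (K * (1 / 2) ^ i) * (1 / 2) :=
            mul_le_mul ih ha.le (apply_nonneg p _) (by positivity)
        _ = K * (1 / 2) ^ (i + 1) := by rw [pow_succ]; ring
  obtain ⟨s, hs⟩ : ∃ s : ℕ → A, ∀ n, s n = ∑ i ∈ Finset.range n, x ^ i := ⟨_, fun n => rfl⟩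
  have hdiff : ∀ N d : ℕ, p (s (N + d) - s N) ≤ K * (2 * (1 / 2) ^ N - 2 * (1 / 2) ^ (N + d)) := by
    intro N d
    induction d with
    | zero =>
      rw [add_zero, sub_self, sub_self, mul_zero, map_zero]
    | succ d ih =>
      have e : s (N + (d + 1)) - s N = (s (N + d) - s N) + x ^ (N + d) := by
        rw [hs, hs, hs, ← add_assoc, Finset.sum_range_succ]
        ring
      rw [e]
      have h1 := map_add_le_add p (s (N + d) - s N) (x ^ (N + d))
      have h2 := hpow (N + d)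
      have h3 : (1 / 2 : ℝ) ^ (N + (d + 1)) = (1 / 2) ^ (N + d) * (1 / 2) := by
        rw [← add_assoc, pow_succ]
      rw [h3]
      linarith
  have hex : ∀ ε : ℝ, 0 < ε → ∃ n : ℕ, K * (2 * (1 / 2) ^ n) ≤ ε := by
    intro ε hε
    obtain ⟨n, hn⟩ := exists_pow_lt_of_lt_one (show 0 < ε / (2 * K) by positivity)
      (show (1 / 2 : ℝ) < 1 by norm_num)
    refine ⟨n, ?_⟩
    rw [lt_div_iff₀ (by positivity)] at hn
    linarith
  obtain ⟨y, hy⟩ := hS s (by
    intro ε hε
    obtain ⟨N, hN⟩ := hex ε hε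
    refine ⟨N, fun k hk => ?_⟩
    obtain ⟨d, rfl⟩ := Nat.exists_eq_add_of_le hk
    have h1 := hdiff N d
    have h2 : 0 ≤ K * (2 * (1 / 2 : ℝ) ^ (N + d)) := by positivity
    linarith)
  refine ⟨y, le_antisymm ?_ (apply_nonneg p _)⟩
  apply le_of_forall_pos_le_add
  intro ε hε
  rw [zero_add]
  have hpa : 0 ≤ p a := apply_nonneg p _
  obtain ⟨N, hN⟩ := hy (ε / (2 * (1 + p a))) (by positivity)
  obtain ⟨M, hM⟩ := hex (ε / 2) (by positivity)
  obtain ⟨n, hn⟩ : ∃ n, n = N + M := ⟨_, rfl⟩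
  have h1 : p (s n - y) ≤ ε / (2 * (1 + p a)) := hN n (by omega)
  have h2 : p (x ^ n) ≤ ε / 2 := by
    have h3 := hpow n
    have h4 : (1 / 2 : ℝ) ^ n ≤ (1 / 2) ^ M :=
      pow_le_pow_of_le_one (by norm_num) (by norm_num) (by omega)
    have h5 : K * (1 / 2 : ℝ) ^ n ≤ K * (1 / 2) ^ M := mul_le_mul_of_nonneg_left h4 hK0.le
    have h6 : 0 ≤ K * (1 / 2 : ℝ) ^ M := by positivity
    linarith
  have e : 1 - y * a = x ^ n + (s n - y) * a := by
    have h3 : s n * (1 - x) = 1 - x ^ n := by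
      rw [hs]
      exact geom_sum_mul_neg x n
    have h4 : a = 1 - x := by rw [hx]; ring
    rw [h4]
    linear_combination -h3
  have h7 : p ((s n - y) * a) ≤ ε / 2 := by
    calc p ((s n - y) * a) ≤ p (s n - y) * p a := hm _ _
      _ ≤ ε / (2 * (1 + p a)) * (1 + p a) :=
          mul_le_mul h1 (by linarith) hpa (by positivity)
      _ = ε / 2 := by field_simp
  rw [e]
  have h8 := map_add_le_add p (x ^ n) ((s n - y) * a)
  linarith

end Pool.Agent.Helper7.SL
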